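import Mathlib

namespace Pool.Agent.MP_7af562_mp.H78

open Matrix

/-- The Pauli matrix X (the basis states of a qubit are indexed by 0, 1 in `ZMod 2`). -/
def pX : Matrix (ZMod 2) (ZMod 2) ℂ := Matrix.of fun x y => if x = y then 0 else 1

/-- The Pauli matrix Y: entry (0,1) is -i, entry (1,0) is i. -/
def pY : Matrix (ZMod 2) (ZMod 2) ℂ :=
  Matrix.of fun x y => if x = y then 0 else if x = 0 then -Complex.I else Complex.I

/-- The Pauli matrix Z = diag(1, -1). -/
def pZ : Matrix (ZMod 2) (ZMod 2) ℂ :=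
  Matrix.of fun x y => if x = y then (if x = 0 then 1 else -1) else 0

/-- One of I, X, Y, Z. -/
def IsPauli (M : Matrix (ZMod 2) (ZMod 2) ℂ) : Prop := M = 1 ∨ M = pX ∨ M = pY ∨ M = pZ

/-- Conjugation by U sends every Pauli matrix to plus or minus a Pauli matrix. -/
def IsClifford (U : Matrix (ZMod 2) (ZMod 2) ℂ) : Prop :=
  ∀ P, IsPauli P → ∃ P', IsPauli P' ∧ (U * P * star U = P' ∨ U * P * star U = -P')

/-- The tensor (Kronecker) product of single-qubit operators, as a matrix in the computational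
basis (basis vectors are indexed by bit strings). -/
def tensor {ι : Type} [Fintype ι] (A : ι → Matrix (ZMod 2) (ZMod 2) ℂ) :
    Matrix (ι → ZMod 2) (ι → ZMod 2) ℂ :=
  Matrix.of fun x y => ∏ i, A i (x i) (y i)

/-- The operator permuting the n qubits. -/
def permOp {n : ℕ} (π : Equiv.Perm (Fin n)) : Matrix (Fin n → ZMod 2) (Fin n → ZMod 2) ℂ :=
  Matrix.of fun x y => if y = x ∘ π then 1 else 0

/-- The codespace of the generators `s j • tensor (g j)`: their common fixed vectors. -/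
def codespace {n m : ℕ} (s : Fin m → ℂ) (g : Fin m → Fin n → Matrix (ZMod 2) (ZMod 2) ℂ) :
    Set ((Fin n → ZMod 2) → ℂ) :=
  {ψ | ∀ j, (s j • tensor (g j)) *ᵥ ψ = ψ}

/-- The operator (U_1 ⊗ ... ⊗ U_n) P_π maps Q onto Q'. -/
def MapsOnto {n : ℕ} (U : Fin n → Matrix (ZMod 2) (ZMod 2) ℂ) (π : Equiv.Perm (Fin n))
    (Q Q' : Set ((Fin n → ZMod 2) → ℂ)) : Prop :=
  (fun ψ => (tensor U * permOp π) *ᵥ ψ) '' Q = Q'

end Pool.Agent.MP_7af562_mp.H78
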